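import Mathlib
import Pool.Agent.Results.MP_15c144_al.MacdonaldCamina

set_option autoImplicit false

/-!
Counterexamples to Macdonald's question of all orders `p ^ (k * (12 * m + 1))`, `p ≥ 5` prime,
`k, m ≥ 1`, with `G_4` of order `p ^ k`.
-/

namespace Pool.Agent.Results.MP_15c144_al.TwoParameterFamilies

open MacdonaldCamina

open scoped commutatorElement

section general

variable {F E : Type} [Field F] [Field E] [Algebra F E] (D : Dat F E)

theorem lcs4_eq (h12 : (12 : E) ≠ 0) (h2 : (2 : E) ≠ 0) : lcsTerm (Gp D) 4 = subZ D := by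
  apply le_antisymm (lcs3_le D)
  intro n hn
  obtain ⟨h1, h3, h4⟩ := hn
  obtain ⟨nv, nw, nc, t⟩ := n
  simp only at h1 h3 h4
  subst h1 h3 h4
  let y : Gp D := ⟨1, 0, 0, 0⟩
  let x : Gp D := ⟨0, 0, algebraMap F E (-t) * (2⁻¹ * 2⁻¹ * 12⁻¹), 0⟩
  have hx : x ∈ lcsTerm (Gp D) 3 := by rw [lcs2_eq D h12 h2]; exact ⟨rfl, rfl⟩
  have hc : ⁅x, y⁆ ∈ lcsTerm (Gp D) 4 :=
    Subgroup.commutator_mem_commutator hx (Subgroup.mem_top _)
  obtain ⟨hv, hw, hcc⟩ := lcs3_le D hc
  have he : (⁅x, y⁆ : Gp D).e = t := by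
    have h := congrArg Gp.e (comm_eq D x y)
    have e0 : ∀ v w c : E, D.P 0 0 v w c = 0 := by
      intro v w c; unfold Dat.P; simp
    have e1 : D.P x.v x.w y.v y.w y.c = 0 := e0 _ _ _
    have e2 : D.P y.v y.w x.v x.w x.c = algebraMap F E (-t) * 2⁻¹ := by
      change D.P 1 0 0 0 (algebraMap F E (-t) * (2⁻¹ * 2⁻¹ * 12⁻¹)) = _
      unfold Dat.P
      simp only [map_one, map_zero]
      field_simp
      ring
    have e3 : D.b x.v y.v = 0 := by
      change D.b 0 1 = 0
      simp
    have e4 : D.b y.v x.v = 0 := by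
      change D.b 1 0 = 0
      simp
    have e5 : D.S (algebraMap F E (-t) * 2⁻¹) = -t := by
      rw [D.S_apply, map_mul, map_inv₀, map_ofNat, D.bar.commutes, ← mul_add]
      have : (2⁻¹ : E) + 2⁻¹ = 1 := by field_simp; norm_num
      rw [this, ← Algebra.smul_def, map_smul, D.T_one, smul_eq_mul, mul_one]
    simp only [mul_e, mul_v, mul_w, mul_c] at h
    rw [hv, hw] at h
    rw [e0, e1, e2, e3, e4, e5] at h
    simp only [map_zero, LinearMap.zero_apply, add_zero] at h
    have hxe : x.e = 0 := rfl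
    have hye : y.e = 0 := rfl
    linear_combination h + hxe + hye
  have : (⟨0, 0, 0, t⟩ : Gp D) = ⁅x, y⁆ := by
    ext
    · exact hv.symm
    · exact hw.symm
    · exact hcc.symm
    · exact he.symm
  rw [this]
  exact hc

theorem subZ_central (x : Gp D) (hx : x ∈ subZ D) (y : Gp D) : x * y = y * x := by
  obtain ⟨h1, h2, h3⟩ := hx
  ext
  · simp [h1]
  · simp [h1, h2]
  · simp [h1, h2, h3]
  · simp only [mul_e]
    rw [h1, h2, h3]
    have e1 : D.P 0 0 y.v y.w y.c = 0 := by unfold Dat.P; simp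
    have e2 : D.P y.v y.w 0 0 0 = 0 := by unfold Dat.P; simp
    rw [e1, e2]
    simp only [map_zero, LinearMap.zero_apply]
    ring

theorem lcs5_eq : lcsTerm (Gp D) 5 = ⊥ := by
  change ⁅lcsTerm (Gp D) 4, (⊤ : Subgroup (Gp D))⁆ = ⊥
  rw [Subgroup.commutator_eq_bot_iff_le_centralizer]
  intro x hx
  rw [Subgroup.mem_centralizer_iff]
  intro y _
  exact (subZ_central D x (lcs3_le D hx) y).symm

theorem card_subZ [Finite F] : Nat.card (subZ D) = Nat.card F := by
  apply Nat.card_congr
  exact
    { toFun := fun x => x.1.e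
      invFun := fun t => ⟨⟨0, 0, 0, t⟩, rfl, rfl, rfl⟩
      left_inv := by
        rintro ⟨⟨v, w, c, e⟩, h1, h2, h3⟩
        simp only at h1 h2 h3
        subst h1 h2 h3
        rfl
      right_inv := fun t => rfl }

theorem card_subN [Finite F] [Finite E] :
    Nat.card (subN D) = Nat.card E * Nat.card F := by
  rw [← Nat.card_prod]
  apply Nat.card_congr
  exact
    { toFun := fun x => (x.1.c, x.1.e)
      invFun := fun t => ⟨⟨0, 0, t.1, t.2⟩, rfl, rfl⟩
      left_inv := by
        rintro ⟨⟨v, w, c, e⟩, h1, h2⟩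
        simp only at h1 h2
        subst h1 h2
        rfl
      right_inv := fun t => rfl }

end general

section data

variable {F E : Type} [Field F] [Field E] [Algebra F E] [FiniteDimensional F E]

/-- the data of the construction exist for every extension of degree `4 m` with an automorphism of
order two -/
theorem exists_dat' (m : ℕ) (hm : Module.finrank F E = 4 * m) (bar : E →ₐ[F] E)
    (hbb : ∀ x, bar (bar x) = x) (x₀ : E) (hx₀ : bar x₀ ≠ x₀) (h2 : (2 : E) ≠ 0) :
    Nonempty (Dat F E) := by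
  classical
  obtain ⟨T, hT⟩ := LinearMap.exists_leftInverse_of_injective
    (Algebra.linearMap F E) (LinearMap.ker_eq_bot.mpr (algebraMap F E).injective)
  have hT' : ∀ a : F, T (algebraMap F E a) = a := by
    intro a
    have := LinearMap.congr_fun hT a
    simpa using this
  set ze : E := x₀ - bar x₀ with hze
  have hze0 : ze ≠ 0 := fun h => hx₀ (by rw [hze, sub_eq_zero] at h; exact h.symm)
  have hbz : bar ze = -ze := by rw [hze, map_sub, hbb]; ring
  -- the skew part
  let sk : Submodule F E := LinearMap.ker (bar.toLinearMap + LinearMap.id)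
  have hsk : ∀ v, v ∈ sk ↔ bar v = -v := by
    intro v
    rw [LinearMap.mem_ker, LinearMap.add_apply, AlgHom.toLinearMap_apply, LinearMap.id_apply]
    exact eq_neg_iff_add_eq_zero.symm
  let sy : Submodule F E := LinearMap.ker (bar.toLinearMap - LinearMap.id)
  have hsy : ∀ v, v ∈ sy ↔ bar v = v := by
    intro v
    rw [LinearMap.mem_ker, LinearMap.sub_apply, AlgHom.toLinearMap_apply, LinearMap.id_apply,
      sub_eq_zero]
  have hcompl : IsCompl sk sy := by
    constructor
    · rw [Submodule.disjoint_def]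
      intro v h1 h3
      rw [hsk] at h1
      rw [hsy] at h3
      have : 2 * v = 0 := by rw [h3] at h1; linear_combination h1
      exact (mul_eq_zero.1 this).resolve_left h2
    · rw [codisjoint_iff, eq_top_iff]
      intro v _
      rw [Submodule.mem_sup]
      refine ⟨2⁻¹ * (v - bar v), ?_, 2⁻¹ * (v + bar v), ?_, ?_⟩
      · rw [hsk, map_mul, map_inv₀, map_ofNat, map_sub, hbb]; ring
      · rw [hsy, map_mul, map_inv₀, map_ofNat, map_add, hbb]; ring
      · field_simp; ring
  let θ : sy ≃ₗ[F] sk :=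
    { toFun := fun v => ⟨ze * v.1, by rw [hsk, map_mul, hbz, (hsy _).1 v.2]; ring⟩
      map_add' := fun a b => Subtype.ext (by simp [mul_add])
      map_smul' := fun a b => Subtype.ext (by simp)
      invFun := fun v => ⟨ze⁻¹ * v.1, by
        rw [hsy, map_mul, map_inv₀, hbz, (hsk _).1 v.2, inv_neg]; ring⟩
      left_inv := fun v => Subtype.ext (by simp [hze0])
      right_inv := fun v => Subtype.ext (by simp [hze0]) }
  have hdim : Module.finrank F sk = m + m := by
    have h1 := Submodule.finrank_add_eq_of_isCompl hcompl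
    have h3 := θ.finrank_eq
    omega
  let e : sk ≃ₗ[F] (Fin m → F) × (Fin m → F) := LinearEquiv.ofFinrankEq _ _ (by
    rw [hdim, Module.finrank_prod, Module.finrank_fin_fun])
  -- the projection to the skew part
  let pr : E →ₗ[F] sk :=
    { toFun := fun v => ⟨2⁻¹ * (v - bar v), by
        rw [hsk, map_mul, map_inv₀, map_ofNat, map_sub, hbb]; ring⟩
      map_add' := fun a b => Subtype.ext (by simp only [map_add, Submodule.coe_add]; ring)
      map_smul' := fun a b => Subtype.ext (by
        simp only [map_smul, RingHom.id_apply, Submodule.coe_smul, ← smul_sub, mul_smul_comm]) }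
  have hpr : ∀ v : sk, pr v.1 = v := by
    intro v
    apply Subtype.ext
    change 2⁻¹ * (v.1 - bar v.1) = v.1
    rw [(hsk _).1 v.2]
    field_simp
    ring
  let b : E →ₗ[F] E →ₗ[F] F := LinearMap.mk₂ F
    (fun x y => (e (pr x)).1 ⬝ᵥ (e (pr y)).2)
    (fun x x' y => by
      rw [map_add, map_add, Prod.fst_add, add_dotProduct])
    (fun c x y => by
      rw [map_smul, map_smul, Prod.smul_fst, smul_dotProduct])
    (fun x y y' => by
      rw [map_add, map_add, Prod.snd_add, dotProduct_add])
    (fun c x y => by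
      rw [map_smul, map_smul, Prod.smul_snd, dotProduct_smul])
  have hb : ∀ x y, b x y = (e (pr x)).1 ⬝ᵥ (e (pr y)).2 := fun x y => rfl
  refine ⟨{ bar := bar, bar_bar := hbb, ze := ze, ze_ne := hze0, bar_ze := hbz, T := T,
            T_one := by have := hT' 1; rwa [map_one] at this, b := b, hb := ?_ }⟩
  intro v hv hbv t
  let v₁ : sk := ⟨v, (hsk v).2 hbv⟩
  have hv₁ : v₁ ≠ 0 := fun h => hv (congrArg Subtype.val h)
  have hev : e v₁ ≠ 0 := fun h => hv₁ (by simpa using h)
  have hprv : pr v = v₁ := hpr v₁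
  have key : ∀ z : (Fin m → F) × (Fin m → F), (e v₁).1 ⬝ᵥ z.2 - z.1 ⬝ᵥ (e v₁).2 = t →
      ∃ v', bar v' = -v' ∧ b v v' - b v' v = t := by
    intro z hz
    refine ⟨(e.symm z).1, (hsk _).1 (e.symm z).2, ?_⟩
    rw [hb, hb, hpr, hprv, LinearEquiv.apply_symm_apply]
    exact hz
  by_cases h1 : (e v₁).1 = 0
  · have h3 : (e v₁).2 ≠ 0 := fun h => hev (Prod.ext h1 h)
    obtain ⟨i, hi⟩ := Function.ne_iff.1 h3
    apply key (Pi.single i (-t * ((e v₁).2 i)⁻¹), 0)
    simp only [dotProduct_zero, single_dotProduct, zero_sub]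
    have hi' : (e v₁).2 i ≠ 0 := hi
    field_simp
  · obtain ⟨i, hi⟩ := Function.ne_iff.1 h1
    apply key (0, Pi.single i (((e v₁).1 i)⁻¹ * t))
    simp only [zero_dotProduct, dotProduct_single, sub_zero]
    have hi' : (e v₁).1 i ≠ 0 := hi
    field_simp

end data

/-- For every prime `p ≥ 5` and all `k, m ≥ 1` there is a group `G` of order
`p ^ (k * (12 * m + 1))`, of nilpotency class four, with `G_3` of order `p ^ (k * (4 * m + 1))` and
`G_4` of order `p ^ k`, such that `(G, G_3)` is a Camina pair and `(G, G_4)` is not. -/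
theorem result : ∀ p : ℕ, p.Prime → 5 ≤ p → ∀ k m : ℕ, 0 < k → 0 < m →
    ∃ (G : Type) (_ : Group G), Finite G ∧ IsPGroup p G ∧ Nat.card G = p ^ (k * (12 * m + 1)) ∧
      Nat.card (lcsTerm G 3) = p ^ (k * (4 * m + 1)) ∧ Nat.card (lcsTerm G 4) = p ^ k ∧
      lcsTerm G 5 = ⊥ ∧
      IsCaminaPair (lcsTerm G 3) ∧ lcsTerm G 4 ≠ ⊥ ∧ ¬ IsCaminaPair (lcsTerm G 4) := by
  intro p hp h5 k m hk hm
  classical
  have : Fact p.Prime := ⟨hp⟩
  let F := GaloisField p k
  have : NeZero (4 * m) := ⟨by omega⟩
  let E := FiniteField.Extension F p (4 * m)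
  have hF : Nat.card F = p ^ k := GaloisField.card p k hk.ne'
  have hE : Nat.card E = p ^ (k * (4 * m)) := by
    rw [FiniteField.natCard_extension, hF, ← pow_mul]
  have hfE : Module.finrank F E = 4 * m := FiniteField.finrank_extension F p (4 * m)
  have hchar : CharP E p := charP_of_injective_algebraMap (algebraMap F E).injective p
  have hne : ∀ n : ℕ, 0 < n → Nat.Coprime n p → (n : E) ≠ 0 := by
    intro n hn hco h
    rw [CharP.cast_eq_zero_iff E p] at h
    have := Nat.Coprime.eq_one_of_dvd hco.symm h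
    omega
  have hc2 : Nat.Coprime 2 p := (Nat.coprime_primes Nat.prime_two hp).mpr (by omega)
  have hc3 : Nat.Coprime 3 p := (Nat.coprime_primes Nat.prime_three hp).mpr (by omega)
  have hc12 : Nat.Coprime 12 p := Nat.Coprime.mul_left (Nat.Coprime.mul_left hc2 hc2) hc3
  have h2 : (2 : E) ≠ 0 := by exact_mod_cast hne 2 (by norm_num) hc2
  have h12 : (12 : E) ≠ 0 := by exact_mod_cast hne 12 (by norm_num) hc12
  -- the automorphism of order two
  let fr := FiniteField.Extension.frob F p (4 * m)
  let bar : E →ₐ[F] E := (fr ^ (2 * m)).toAlgHom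
  have hbar : ∀ x, bar x = x ^ (Nat.card F ^ (2 * m)) := fun x =>
    FiniteField.Extension.frob_iterate_apply F p (4 * m) (2 * m)
  have hbb : ∀ x, bar (bar x) = x := by
    intro x
    rw [hbar, hbar, ← pow_mul, ← pow_add, ← two_mul]
    have : Fintype E := Fintype.ofFinite E
    have h1 := FiniteField.pow_card x
    rw [← Nat.card_eq_fintype_card, FiniteField.natCard_extension] at h1
    have h3 : 2 * (2 * m) = 4 * m := by ring
    rw [h3]
    exact h1
  obtain ⟨x₀, hx₀⟩ : ∃ x₀, bar x₀ ≠ x₀ := by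
    by_contra hcon
    push Not at hcon
    have hinf : ∀ x : E, x ^ (Nat.card F ^ (2 * m)) = x := fun x => by rw [← hbar, hcon]
    have hcard : Nat.card E ≤ Nat.card F ^ (2 * m) := by
      have : Fintype E := Fintype.ofFinite E
      have h1 : (1 : ℕ) < Nat.card F ^ (2 * m) := by
        apply Nat.one_lt_pow (by omega)
        rw [hF]
        exact Nat.one_lt_pow hk.ne' hp.one_lt
      have hX := FiniteField.X_pow_card_sub_X_ne_zero E h1
      have hsub : (Finset.univ : Finset E) ⊆
          (Polynomial.X ^ (Nat.card F ^ (2 * m)) - Polynomial.X : Polynomial E).roots.toFinset := by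
        intro x _
        rw [Multiset.mem_toFinset, Polynomial.mem_roots hX]
        simp [hinf x]
      calc Nat.card E = (Finset.univ : Finset E).card := by
            rw [Nat.card_eq_fintype_card]; rfl
        _ ≤ _ := Finset.card_le_card hsub
        _ ≤ _ := Multiset.toFinset_card_le _
        _ ≤ _ := Polynomial.card_roots' _
        _ = _ := FiniteField.X_pow_card_sub_X_natDegree_eq E h1
    rw [FiniteField.natCard_extension] at hcard
    have h1 : 1 < Nat.card F := by rw [hF]; exact Nat.one_lt_pow hk.ne' hp.one_lt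
    have := (Nat.pow_le_pow_iff_right h1).1 hcard
    omega
  obtain ⟨D⟩ := exists_dat' (F := F) (E := E) m hfE bar hbb x₀ hx₀ h2
  let e : Gp D ≃ E × E × E × F :=
    { toFun := fun x => (x.v, x.w, x.c, x.e)
      invFun := fun x => ⟨x.1, x.2.1, x.2.2.1, x.2.2.2⟩
      left_inv := fun x => rfl
      right_inv := fun x => rfl }
  have hfin : Finite (Gp D) := Finite.of_equiv _ e.symm
  have hcard : Nat.card (Gp D) = p ^ (k * (12 * m + 1)) := by
    rw [Nat.card_congr e, Nat.card_prod, Nat.card_prod, Nat.card_prod, hE, hF,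
      ← pow_add, ← pow_add, ← pow_add]
    congr 1
    ring
  obtain ⟨r1, r2, r3⟩ := result_aux D h12 h2
  refine ⟨Gp D, inferInstance, hfin, IsPGroup.of_card hcard, hcard, ?_, ?_, lcs5_eq D, r1, r2, r3⟩
  · rw [lcs2_eq D h12 h2, card_subN, hE, hF, ← pow_add]
    congr 1
  · rw [lcs4_eq D h12 h2, card_subZ, hF]

end Pool.Agent.Results.MP_15c144_al.TwoParameterFamilies
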